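import Pool.Agent.BEC.Stmts
import Pool.Agent.BOX.Defs

/-!
# Squad BXS (MP_be01ff_an): boxes as domains of `E N = ℝ^N`, strong solutions

`Pool.Agent.BOX.Rate l a` (proved for almost every box) gives `Pool.Agent.BE01F.SharpRate (Bx l) a 2`.
-/

set_option autoImplicit false

namespace Pool.Agent.BXS

open Set Filter Topology MeasureTheory InnerProductSpace Laplacian
open scoped InnerProductSpace ENNReal
open Pool.Agent.BE01F Pool.Agent.BEC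

noncomputable section

/-- The box `∏ (0, l_i)` as a subset of `E N`. -/
def Bx {N : ℕ} (l : Fin N → ℝ) : Set (E N) := {x | ∀ i, 0 < x i ∧ x i < l i}

/-- The closed box. -/
def Bc {N : ℕ} (l : Fin N → ℝ) : Set (E N) := {x | ∀ i, 0 ≤ x i ∧ x i ≤ l i}

/-- The boundary of the box. -/
def Bd {N : ℕ} (l : Fin N → ℝ) : Set (E N) :=
  {x | (∀ i, 0 ≤ x i ∧ x i ≤ l i) ∧ ∃ i, x i = 0 ∨ x i = l i}

/-- CUT (adapt `Pool/Agent/Helper96_BEC/HZC.lean`: there the cut off is `c n x = ph n (δ x)`; here it is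
abstract; uses MOL).  `W n = c n * G n` in `Ω`, `0` outside.  The bound of the last term of the gradient,
`|G n x| ‖gradient (c n) x‖ ≤ M`, is the hypothesis with `g = G n x`, `|G n x| ≤ |f x| + 1/(n+1)`. -/
def CutStmt : Prop := ∀ (d : ℕ) (Ω V : Set (E d)) (f : E d → ℝ) (c : ℕ → E d → ℝ) (M : ℝ),
  IsOpen Ω → Bornology.IsBounded Ω → (∀ n, ContDiff ℝ ((⊤ : ℕ∞) : WithTop ℕ∞) (c n)) →
  (∀ n x, 0 ≤ c n x ∧ c n x ≤ 1) →
  (∀ n, ∃ K, IsCompact K ∧ K ⊆ Ω ∧ ∀ x ∈ Ω, x ∉ K → c n x = 0) →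
  (∀ x ∈ Ω, ∀ᶠ n in atTop, c n =ᶠ[𝓝 x] fun _ => 1) →
  (∀ (n : ℕ) (x : E d) (g : ℝ), x ∈ Ω → |g| ≤ |f x| + 1 / ((n : ℝ) + 1) →
    |g| * ‖gradient (c n) x‖ ≤ M) →
  IsOpen V → closure Ω ⊆ V → ContDiffOn ℝ 1 f V → H10 Ω f (gradient f)

/-- BCU (easy-medium; uses the lemmas `st_prop`, `ph`, `ph_bd`, .. of
`Pool/Agent/Helper96_BEC/HZC.lean`): `c n x = ∏ i, (ph n (x i) * ph n (l i - x i))`; it is `0` unless
`1/(n+1) ≤ x i, l i - x i` for all `i` (a compact subset of the box), eventually `1` near each point of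
the box; the gradient is the sum over the `2N` factors of (product of the others, in `[0, 1]`) times
`± deriv (ph n) (..) • e_i`, and `|g| * |deriv (ph n) (x i)| ≤ (C + 1) K` by `ph_bd` (`|g| ≤ |f x| +
1/(n+1) ≤ C x i + 1/(n+1)`); `M = 2 N (C + 1) K`. -/
def BcuStmt : Prop := ∀ (N : ℕ) (l : Fin N → ℝ) (f : E N → ℝ) (C : ℝ), (∀ i, 0 < l i) → 0 ≤ C →
  (∀ x ∈ Bx l, ∀ i, |f x| ≤ C * x i ∧ |f x| ≤ C * (l i - x i)) →
  ∃ (c : ℕ → E N → ℝ) (M : ℝ), (∀ n, ContDiff ℝ ((⊤ : ℕ∞) : WithTop ℕ∞) (c n)) ∧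
    (∀ n x, 0 ≤ c n x ∧ c n x ≤ 1) ∧
    (∀ n, ∃ K, IsCompact K ∧ K ⊆ Bx l ∧ ∀ x ∈ Bx l, x ∉ K → c n x = 0) ∧
    (∀ x ∈ Bx l, ∀ᶠ n in atTop, c n =ᶠ[𝓝 x] fun _ => 1) ∧
    ∀ (n : ℕ) (x : E N) (g : ℝ), x ∈ Bx l → |g| ≤ |f x| + 1 / ((n : ℝ) + 1) →
      |g| * ‖gradient (c n) x‖ ≤ M

/-- BLI (easy; no hypotheses): the closed box is compact and convex, `‖fderiv f‖ ≤ C` on it; the segment
from `x` to the point with `x i` replaced by `0` (or `l i`) is in the closed box and has length `x i`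
(`l i - x i`): mean value inequality (`Convex.norm_image_sub_le_of_norm_fderivWithin_le` or
`..._of_norm_hasFDerivWithin_le`). -/
def BliStmt : Prop := ∀ (N : ℕ) (l : Fin N → ℝ) (V : Set (E N)) (f : E N → ℝ), (∀ i, 0 < l i) →
  IsOpen V → Bc l ⊆ V → ContDiffOn ℝ 1 f V → (∀ x ∈ Bd l, f x = 0) →
  ∃ C : ℝ, 0 ≤ C ∧ ∀ x ∈ Bx l, ∀ i, |f x| ≤ C * x i ∧ |f x| ≤ C * (l i - x i)

/-- BFR (easy; no hypotheses): topology of the box; `WithLp.ofLp` is a homeomorphism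
(`EuclideanSpace.equiv`, `PiLp.continuousLinearEquiv`, `PiLp.homeomorph`).  `closure (Box l) = Icc 0 l`
(`Set.pi`, `closure_pi_set`, `interior_pi_set`), `l i > 0`. -/
def BfrStmt : Prop := ∀ (N : ℕ) (l : Fin N → ℝ), (∀ i, 0 < l i) →
  IsOpen (Bx l) ∧ Bornology.IsBounded (Bx l) ∧ closure (Bx l) ⊆ Bc l ∧
    ∀ x : E N, x ∈ Bd l → WithLp.ofLp x ∈ frontier (Pool.Agent.BOX.Box l)

/-- LAP (easy-medium; no hypotheses): the Laplacian in coordinates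
(`laplacian_eq_iteratedFDeriv_orthonormalBasis` with `EuclideanSpace.basisFun`; `iteratedDeriv 2` of
`s ↦ f (x + s • e_i)` at `0` is `iteratedFDeriv ℝ 2 f x ![e_i, e_i]`; `(y + s • single i 1).ofLp =
y.ofLp + s • Pi.single i 1`). -/
def LapStmt : Prop := ∀ (N : ℕ) (F : (Fin N → ℝ) → ℝ) (x : E N),
  ContDiffAt ℝ 2 F (WithLp.ofLp x) →
  (Δ (fun y : E N => F (WithLp.ofLp y))) x = ∑ i, Pool.Agent.BOX.dxx i F (WithLp.ofLp x)

/-- GRD (easy; no hypotheses): `‖gradient f x‖² = ∑ i, ⟪gradient f x, e_i⟫²` and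
`⟪gradient f x, e_i⟫ = fderiv f x e_i = deriv (fun s => f (x + s • e_i)) 0`. -/
def GrdStmt : Prop := ∀ (N : ℕ) (F : (Fin N → ℝ) → ℝ) (x : E N),
  DifferentiableAt ℝ F (WithLp.ofLp x) →
  ‖gradient (fun y : E N => F (WithLp.ofLp y)) x‖ ^ 2 =
    ∑ i, Pool.Agent.BOX.dx i F (WithLp.ofLp x) ^ 2

/-- MEA (easy; no hypotheses): `WithLp.ofLp` preserves the volume
(`EuclideanSpace.volume_preserving_symm_measurableEquiv_toLp`, `PiLp.volume_preserving_ofLp`);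
`MeasurePreserving.setIntegral_preimage_emb`. -/
def MeaStmt : Prop := ∀ (N : ℕ) (l : Fin N → ℝ) (g : (Fin N → ℝ) → ℝ),
  ∫ x in Bx l, g (WithLp.ofLp x) = ∫ y in Pool.Agent.BOX.Box l, g y

/-- ZBX (easy; assembly of CUT, BCU, BLI, BFR). -/
def ZbxStmt : Prop := ∀ (N : ℕ) (l : Fin N → ℝ) (V : Set (E N)) (f : E N → ℝ), (∀ i, 0 < l i) →
  IsOpen V → Bc l ⊆ V → ContDiffOn ℝ 1 f V → (∀ x ∈ Bd l, f x = 0) → H10 (Bx l) f (gradient f)

/-- STB (medium; uses ZBX, BFR, LAP, GRD, MEA and the rows CSE, LDF, WEK of squad BEC; follow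
`Pool/Agent/Helper49_BEC/SHR.lean`): the strong solution is `fun t x => u t x.ofLp` (a `C²` function of
`(t, x)` on `{-ε < t}`, a composition with a continuous linear map).  `Bd l ⊆` the preimage of the
frontier (BFR), `Bc l ⊆ closure`.. is not needed: `U = {z | -ε < z.1}` contains everything. -/
def StbStmt : Prop := ∀ (N : ℕ) (l : Fin N → ℝ) (a : ℝ), (∀ i, 0 < l i) → 0 < a →
  Pool.Agent.BOX.Rate l a → SharpRate (Bx l) a ((2 * 1 : ℕ) : ℝ)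

end

end Pool.Agent.BXS
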